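import Pool.Agent.Helper59.PLG.Defs
import Pool.Agent.Helper37.PL.FCL

/-!
# Project PL, version 7, block GE2: a common fixed place of `YL`
-/

set_option autoImplicit false

namespace Pool.Agent.PRG

open VC IntermediateField NumberField IsDedekindDomain Pool.Agent.SC
open Pool.Agent.L (L0 MM)
open Pool.Agent.LN (Geo Act)
open Pool.Agent.M (Moves OverPl)
open Pool.Agent.ML (HasMu BPl)
open Pool.Agent.TOW (AuE)
open Pool.Agent.PDL (YL)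
open Pool.Agent.PRL (AbE FixB)

theorem gE2 (hLVL : PD.StmtLVL) (hFCL : PRL.StmtFCL) (hYLV : StmtYLV) : StmtGE2 := by
  intro k K0 E U _ _ _ _ _ _ _ _ _ _ _ _ ℓ h r hℓ hμ hG R hR
  obtain ⟨hL, hMM, hab⟩ := hYLV k K0 E U ℓ h r hℓ hG
  have hauE : ∀ a : U ≃ₐ[E] U, (∀ x ∈ L0 E K0 (U := U), a x = x) →
      AuE E K0 (a : U ≃+* U) := fun a ha =>
    ⟨fun x => ha _ (IntermediateField.subset_adjoin _ _ ⟨x, rfl⟩), fun e => a.commutes e⟩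
  have hpow : ∀ (a : U ≃ₐ[E] U) (n : ℕ) (x : U), (a ^ n) x = ((a : U ≃+* U) ^ n) x := by
    intro a n
    induction n with
    | zero => intro x; rfl
    | succ n ih =>
      intro x
      rw [pow_succ, pow_succ]
      show (a ^ n) (a x) = ((a : U ≃+* U) ^ n) ((a : U ≃+* U) x)
      rw [ih]
      rfl
  have h1 := hLVL k K0 E U ℓ h r hℓ hμ hG R hR (YL E K0 ℓ (U := U)) hL hMM
    (fun a b ha hb x hx => hab.comm _ _ (hauE a ha) (hauE b hb) x hx)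
    (fun a ha x hx => by rw [hpow]; exact hab.exp _ (hauE a ha) x hx)
  have h2 := PRL37.rare_finset (k := k) (ℓ := ℓ) R (F := fun b c =>
    ∃ Φ : (E ≃ₐ[k] E) →* (U ≃+* U), Act (K0 := K0) ℓ r c Φ ∧
      (∀ g : E ≃ₐ[k] E, ∃ Q : Place E (YL E K0 ℓ (U := U)), OverPl b Q ∧ Moves (Φ g) _ Q Q) ∧
        ¬ FixB E K0 ℓ h (YL E K0 ℓ (U := U)) Φ)
    (fun b hb => hFCL k K0 E U ℓ h r hℓ hμ hG (YL E K0 ℓ (U := U)) hL hMM hab b (hR.br b hb))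
  refine PRL37.rare_mono (PRL37.rare_or h1 h2) ?_
  rintro c hc ⟨Φ, A, hno⟩
  by_cases h3 : ∀ b₀ ∈ R, ∃ σ : E ≃ₐ[k] E, ¬ ∃ Q : Place E (YL E K0 ℓ (U := U)),
      OverPl b₀ Q ∧ Moves (Φ σ) _ Q Q
  · exact Or.inl ⟨Φ, A, h3⟩
  · push Not at h3
    obtain ⟨b, hb, h4⟩ := h3
    refine Or.inr ⟨b, hb, Φ, A, h4, ?_⟩
    rintro ⟨b', Q, hb', hQ, hm⟩
    apply hno
    refine ⟨b', ?_, Q, hQ, hm⟩
    by_contra hcon
    obtain ⟨σ, hσ⟩ := hR.only c Φ hc A b' hb' hcon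
    apply hσ
    have hLY : ∀ z ∈ L0 E K0 (U := U), z ∈ YL E K0 ℓ (U := U) := fun z hz =>
      IntermediateField.subset_adjoin _ _ (Or.inl hz)
    intro x hx hx'
    rw [hQ x hx (hLY x hx), hm σ x (hLY x hx) (hLY _ hx'), ← hQ (Φ σ x) hx' (hLY _ hx')]

end Pool.Agent.PRG
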