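import Pool.Agent.Helper59.PLG.Defs
import Pool.Agent.Helper45.PL.OneF
import Pool.Agent.Helper88.PL.TOWU

/-!
# Project PL, version 7, block YLV: `YL` is a level
-/

set_option autoImplicit false

namespace Pool.Agent.PRG

open VC IntermediateField NumberField IsDedekindDomain Pool.Agent.SC
open Pool.Agent.L (L0 MM)
open Pool.Agent.LN (Geo Act)
open Pool.Agent.PDL (YL au_YL K_mem_YL L0_le_YL MM_le_YL comm_YL pow_fix_YL gal_L0)
open Pool.Agent.PRL (TT AbE tOWU yl_le_TT45)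
open Pool.Agent.TOW (ff_le59)

theorem yLV : StmtYLV := by
  intro k K0 E U _ _ _ _ _ _ _ _ _ _ _ _ ℓ h r hℓ hG
  have hcl : IsAlgClosed E := hG.clE
  obtain ⟨hL, -, -⟩ := tOWU k K0 E U ℓ h r hℓ hG 1
  have hcU : CharZero U := charZero_of_injective_algebraMap (algebraMap k U).injective
  have hgal : IsGalois (L0 E K0 (U := U)) U := gal_L0 hG.normal
  refine ⟨⟨ff_le59 (L := L0 E K0 (U := U)) L0_le_YL (yl_le_TT45 (r := r) 0) hL.ff, K_mem_YL,
    fun _ hT hE z hz => au_YL ⟨hT, hE⟩ z hz⟩, MM_le_YL hG.rpow,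
    ⟨fun _ _ ha hb => comm_YL hℓ.pos ha hb, fun _ ha => pow_fix_YL hℓ.pos ha⟩⟩

end Pool.Agent.PRG
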